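import Mathlib
import Pool.Agent.Helper758.FrDefs
import Pool.Agent.Helper758.LS_T5B

/-!
# MP_1fef1a_an: Q1 holds

For every `ρ > 0` and every entire function `f` of order `ρ` and normal type that satisfies
condition (2), every element `v` of the limit set `Fr f` has the form `v(r e^{iφ}) = h(φ) r^ρ`
with `h` a `2π`-periodic `ρ`-trigonometrically convex function: `Fr f` is an indicator limit set.

The definitions `ClassA`, `Cond2`, `FrSet`, `TrigConvex` are in `Pool/Agent/Helper758/FrDefs.lean`.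
-/

namespace Pool.Agent.Results.MP_1fef1a_an.IndicatorLimitSet

open Pool.Agent.Helper758.LS Complex

/-- `Fr f` is an indicator limit set, for every `ρ > 0` and every `f ∈ A(ρ)` with condition (2). -/
theorem result :
    ∀ ρ : ℝ, 0 < ρ → ∀ f : ℂ → ℂ, ClassA f ρ → Cond2 f ρ → ∀ v ∈ FrSet f ρ,
      ∃ h : ℝ → ℝ, (∀ φ, h (φ + 2 * Real.pi) = h φ) ∧ TrigConvex ρ h ∧
        ∀ r : ℝ, 0 ≤ r → ∀ φ : ℝ, v (r * cexp (φ * I)) = ((h φ * r ^ ρ : ℝ) : EReal) :=
  fun ρ hρ f hf h2 v hv => M_T5B.fr_homogeneous ρ hρ f hf h2 v hv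

end Pool.Agent.Results.MP_1fef1a_an.IndicatorLimitSet
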